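import Pool.Agent.MP_28f04c_an.Mg.H67_Bridge

/-!
Every hyperbolic polynomial of degree at least two with connected Julia set has infinitely many
quasisymmetries of its Julia set.
-/

set_option autoImplicit false

namespace Pool.Agent.Results.MP_28f04c_an.InfinitelyMany

open Pool.Agent.MP_28f04c_an.H67

theorem result (f : Polynomial ℂ) (hd : 2 ≤ f.natDegree) (hf : Hyperbolic f)
    (hJ : IsConnected (julia f)) :
    {h : julia f ≃ₜ julia f | IsQuasisymmetry h}.Infinite :=
  main hd hf hJ

end Pool.Agent.Results.MP_28f04c_an.InfinitelyMany
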